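import Pool.Agent.Work.MP_791b9a_al.Defs
import Pool.Agent.Work.MP_791b9a_al.Main

namespace Pool.Agent.Results.MP_791b9a_al.TwoNil

open MP791b9a

/-- Let `G` be a finite group with Sylow 2-subgroup `P` of order `2 ^ n` and let `1 < k < n`.
If every subgroup of `P` of order `2 ^ k` is propermutable in `G`, then `G` is 2-nilpotent.
(In particular this holds when `P` is non-abelian.) -/
theorem result {G : Type*} [Group G] [Finite G] (P : Sylow 2 G) (n k : ℕ)
    (hP : Nat.card P = 2 ^ n) (hk1 : 1 < k) (hkn : k < n)
    (h : ∀ H : Subgroup G, H ≤ P → Nat.card H = 2 ^ k → Propermutable H) : TwoNilpotent G :=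
  main_theorem P n k hP hk1 hkn h

end Pool.Agent.Results.MP_791b9a_al.TwoNil
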